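import Pool.Agent.Helper31.T5.CntB
import Pool.Agent.Helper84.T5b.Defs
import Pool.Agent.Helper30.T5b.Size
import Pool.Agent.Helper30.T5b.Level
import Pool.Agent.Helper37.T5b.Ev

/-!
# T5b (MP_12a1af), block CNTb: the number of configurations of a state

`card_conf_ge` : for late states `√(Un m k l) / (C l) ^ (10 + 3 k)` is at most the number of
configurations (joint vector and static vectors).
-/

set_option autoImplicit false

namespace Pool.Agent.Helper31.T5

open Finset Pool.Agent.Helper5.ET Pool.Agent.Helper27.T4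
open Pool.Agent.Helper27.T5b Pool.Agent.Helper37.T5b Pool.Agent.Helper30.T5b
open Pool.Agent.Helper57.T5 Pool.Agent.Helper39.T5 Pool.Agent.Helper84.T5b
open Pool.Agent.Helper27.T5 (sp gw)

theorem rL_le {m : ℕ} (hm : 0 < m) (k l : ℕ) : rL m k l ≤ k + 1 := by
  have h1 := dv_le_sv m k (mL m k l)
  have h2 := k_le_dv hm k (mL m k l)
  unfold rL bL sL
  omega

theorem lt_sub_of_lt_rL {m k l t : ℕ} (ht : t < rL m k l) : bL m k l < sL m k l - t := by
  unfold rL at ht
  omega

theorem mL_le (m k l : ℕ) : mL m k l ≤ l := l1_le _ _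

theorem aJ_le (m k s l : ℕ) (i : JF) : aJ m k s l i ≤ l := by
  have h : ∀ f, ct (ins m k) own (ex m k) f l ≤ l := by
    intro f
    unfold ct
    exact (card_filter_le _ _).trans (card_range l).le
  rcases i with f | i
  · exact h _
  · refine Fin.cases ?_ (fun f => ?_) i
    · exact h _
    · exact h _

theorem pJ_le (k s : ℕ) (i : JF) : pJ k s i ≤ BP k := by
  rcases i with f | i
  · exact ((pr_lt_pz f k 0 0).trans_le (pz_le k 0 0)).le
  · refine Fin.cases ?_ (fun f => ?_) i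
    · exact ((buf_lt_pz k 0 0).trans_le (pz_le k 0 0)).le
    · exact pz_le k _ _

theorem million_le_pJ (k s : ℕ) (i : JF) : 10 ^ 6 ≤ pJ k s i := by
  rcases i with f | i
  · show 10 ^ 6 ≤ pr f
    fin_cases f <;> simp [pr]
  · refine Fin.cases ?_ (fun f => ?_) i
    · show 10 ^ 6 ≤ 1000039
      norm_num
    · exact (million_lt_pz k (s + 1) f).le

theorem T1_nonempty {p a : ℕ} (hp : p.Prime) (h6 : 10 ^ 6 ≤ p) (ha : a ≠ 0) :
    (T1 p a).Nonempty := by
  refine ⟨2, ?_⟩
  rw [mem_T1]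
  refine ⟨Nat.prime_two, ?_, ?_⟩
  · exact (Nat.coprime_primes Nat.prime_two hp).2 (by omega)
  · have h1 : p ≤ p ^ a := Nat.le_self_pow ha p
    omega

/-- the joint level -/
theorem card_XJ_ge (m k l : ℕ) (hl : 0 < l) :
    Real.sqrt (Jn m k (sL m k l) l) / (672 * ((l * BP k : ℕ) : ℝ)) ^ 7 ≤
      ((XJ m k l).card : ℝ) := by
  have hL : 0 < l * BP k := Nat.mul_pos hl (BP_pos k)
  have h := card_pi_ge (pJ k (sL m k l)) (aJ m k (sL m k l) l) (fun _ => 1)
    (fun i => if aJ m k (sL m k l) l i = 0 then {1}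
      else T1 (pJ k (sL m k l) i) (aJ m k (sL m k l) l i)) (l := l * BP k) (C := 672)
    (pJ_prime k _) hL (fun i => ?_) (fun i hi _ => ?_) le_rfl (fun i hi => ?_) (fun i => ?_)
  · have hc : Fintype.card JF = 7 := by simp [JF]
    rw [hc] at h
    exact h
  · split_ifs with h
    · exact singleton_nonempty _
    · exact T1_nonempty (pJ_prime k _ i) (million_le_pJ k _ i) h
  · rw [if_neg (by omega)]
  · have h0 : aJ m k (sL m k l) l i = 0 := by omega
    rw [h0, pow_zero, Real.sqrt_one]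
    norm_num
  · have h1 : (aJ m k (sL m k l) l i : ℝ) ≤ l := by exact_mod_cast aJ_le m k _ l i
    have hp0 : (0 : ℝ) < pJ k (sL m k l) i := by exact_mod_cast (pJ_prime k _ i).pos
    have h2 : Real.log (pJ k (sL m k l) i) ≤ BP k := by
      have h3 : (pJ k (sL m k l) i : ℝ) ≤ BP k := by exact_mod_cast pJ_le k _ i
      have h4 := Real.log_le_sub_one_of_pos hp0
      linarith
    have h5 : 0 ≤ Real.log (pJ k (sL m k l) i) := Real.log_natCast_nonneg _
    push_cast
    have h6 : (0 : ℝ) ≤ (l : ℝ) * BP k := by positivity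
    calc (aJ m k (sL m k l) l i : ℝ) * Real.log (pJ k (sL m k l) i) ≤ l * BP k := by gcongr
      _ ≤ 14 * (l * BP k) := by linarith

/-- one static level -/
theorem card_Ys_ge {m : ℕ} (hm : 0 < m) (k : ℕ) : ∃ t0 : ℕ, ∀ l : ℕ, 0 < l →
    bb 0 ≤ mL m k l → kt m k ≤ era (mL m k l) → t0 ≤ bL m k l → ∀ t < rL m k l,
    Real.sqrt (QQ m k (sL m k l) t) / (672 * ((l * BP k : ℕ) : ℝ)) ^ 3 ≤
      ((Ys m k l t).card : ℝ) := by
  obtain ⟨t0, h0⟩ := exists_pow_le_QF hm k
  refine ⟨t0, fun l hl hb hk hbl t ht => ?_⟩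
  have hL : 0 < l * BP k := Nat.mul_pos hl (BP_pos k)
  have hst := lt_sub_of_lt_rL ht
  obtain ⟨u, hu⟩ : ∃ u, sL m k l - t = u + 1 := ⟨sL m k l - t - 1, by omega⟩
  have h := card_TT_ge_log (pz k (sL m k l - t)) (zf m k (sL m k l - t)) (l := l * BP k)
    (Pool.Agent.Helper30.T5b.pz_prime k _) (fun f => ?_) hL (fun f => ?_)
  · rw [Fintype.card_fin] at h
    exact h
  · -- the modulus of a family is large
    have h1 := h0 (sL m k l - t) (by omega) f 1 ?_
    · refine le_trans ?_ h1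
      norm_num
    · have h2 := eight_mul_dz hm (sL m k l - t) f
      have h3 := SS_le_two_Sg hm u
      have h4 := SS_ge hm (u + 1)
      have h5 : (2 : ℕ) ^ 250 = 2 ^ 30 * 2 ^ 220 := by rw [← pow_add]
      have h6 : (1 : ℕ) ≤ 2 ^ 220 := Nat.one_le_two_pow
      have h7 : 1 ≤ gw f := by fin_cases f <;> simp [gw]
      rw [hu] at h2 ⊢
      have h8 : Sg m (u + 1) ≤ gw f * Sg m (u + 1) := Nat.le_mul_of_pos_left _ h7
      have h9 : (2 : ℕ) ^ 30 ≤ 2 ^ 30 * 2 ^ 220 := Nat.le_mul_of_pos_right _ h6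
      rw [h5] at h4
      have h10 : (2 : ℕ) ^ 30 = 1073741824 := by norm_num
      omega
  · -- exponents
    have h1 : pz k (sL m k l - t) f ^ zf m k (sL m k l - t) f ≤
        (10 ^ 6) ^ dz m (sL m k l - t) f := QF_le m k _ f
    have h2 := mul_log_le (pz_pos k _ f) h1
    have h3 : dz m (sL m k l - t) f ≤ Sg m (sL m k l - t) := by
      have h4 := eight_mul_dz hm (sL m k l - t) f
      have h5 : gw f ≤ 3 := by fin_cases f <;> simp [gw]
      have h6 : gw f * Sg m (sL m k l - t) ≤ 3 * Sg m (sL m k l - t) :=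
        Nat.mul_le_mul_right _ h5
      omega
    have h4 : Sg m (sL m k l - t) ≤ l := by
      have h5 := Sg_le m (sL m k l - t)
      have h6 : SS m (sL m k l - t) ≤ SS m (sL m k l + 1) := SS_mono m (by omega)
      have h7 : SS m (sL m k l + 1) ≤ mL m k l := SS_sv_succ_le' hm hb hk
      have h8 := mL_le m k l
      omega
    have h5 : (dz m (sL m k l - t) f : ℝ) ≤ ((l * BP k : ℕ) : ℝ) := by
      have h6 : l ≤ l * BP k := Nat.le_mul_of_pos_right _ (BP_pos k)
      exact_mod_cast h3.trans (h4.trans h6)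
    linarith

/-- **CNTb, number of configurations.** -/
theorem card_conf_ge {m : ℕ} (hm : 0 < m) (k : ℕ) : ∃ t0 : ℕ, ∃ C : ℝ, 1 ≤ C ∧ ∀ l : ℕ, 0 < l →
    bb 0 ≤ mL m k l → kt m k ≤ era (mL m k l) → t0 ≤ bL m k l →
    Real.sqrt (Un m k l) / (C * (l : ℝ)) ^ (10 + 3 * k) ≤
      ((XJ m k l ×ˢ Fintype.piFinset (fun t : Fin (rL m k l) => Ys m k l t)).card : ℝ) := by
  obtain ⟨t0, h0⟩ := card_Ys_ge hm k
  have hBP : (1 : ℝ) ≤ BP k := by exact_mod_cast (BP_pos k)
  refine ⟨t0, 672 * BP k, by linarith, fun l hl hb hk hbl => ?_⟩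
  have hl1 : (1 : ℝ) ≤ l := by exact_mod_cast hl
  set D : ℝ := 672 * ((l * BP k : ℕ) : ℝ) with hD
  have hD1 : 1 ≤ D := by
    rw [hD]
    push_cast
    nlinarith
  have hCD : 672 * (BP k : ℝ) * l = D := by
    rw [hD]
    push_cast
    ring
  rw [hCD]
  have h1 := card_XJ_ge m k l hl
  rw [← hD] at h1
  have h2 : Real.sqrt (LL (QQ m k (sL m k l)) (rL m k l)) / D ^ (3 * rL m k l) ≤
      ((Fintype.piFinset (fun t : Fin (rL m k l) => Ys m k l t)).card : ℝ) := by
    rw [Fintype.card_piFinset]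
    unfold LL
    push_cast
    rw [Real.sqrt_prod _ (fun f _ => by positivity), pow_mul,
      ← Fin.prod_univ_eq_prod_range (fun t => Real.sqrt (QQ m k (sL m k l) t : ℝ)) (rL m k l)]
    have e1 : (D ^ 3) ^ rL m k l = ∏ _t : Fin (rL m k l), D ^ 3 := by
      rw [prod_const, card_univ, Fintype.card_fin]
    rw [e1, ← prod_div_distrib]
    apply Finset.prod_le_prod
    · intro t _
      positivity
    · intro t _
      exact h0 l hl hb hk hbl t t.2
  rw [card_product]
  push_cast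
  have h3 : Real.sqrt (Un m k l) = Real.sqrt (Jn m k (sL m k l) l) *
      Real.sqrt (LL (QQ m k (sL m k l)) (rL m k l)) := by
    unfold Un
    push_cast
    rw [Real.sqrt_mul (by positivity)]
  have h4 := rL_le hm k l
  have h5 : D ^ (7 + 3 * rL m k l) ≤ D ^ (10 + 3 * k) := pow_le_pow_right₀ hD1 (by omega)
  have hD0 : 0 < D := by linarith
  calc Real.sqrt (Un m k l) / D ^ (10 + 3 * k)
      ≤ Real.sqrt (Un m k l) / D ^ (7 + 3 * rL m k l) :=
        div_le_div_of_nonneg_left (Real.sqrt_nonneg _) (by positivity) h5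
    _ = (Real.sqrt (Jn m k (sL m k l) l) / D ^ 7) *
        (Real.sqrt (LL (QQ m k (sL m k l)) (rL m k l)) / D ^ (3 * rL m k l)) := by
        rw [h3, pow_add]
        field_simp
    _ ≤ _ := mul_le_mul h1 h2 (by positivity) (by positivity)

end Pool.Agent.Helper31.T5
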