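import Pool.Agent.Helper45.T5.RegWin
import Pool.Agent.Helper87.L3.Count

/-!
# T5, block J0 (c): pairs of windows, two arcs one after the other

`U`, `U'` regular sets; the windows are `b = q N' u`, `u ∈ U` (upper state, `N = q N'`) and
`b' = N' u'`, `u' ∈ U'` (lower state); the front of the upper state is `Ne = N' E`.
`arcs_card` : number of pairs with `b + b' ≤ n < b + b' + 2 Ne`.
`arcs_exp` : the same with exponentials; `far_exp` : the exponent for `D ≥ 7/20 W`.
-/

set_option autoImplicit false

namespace Pool.Agent.Helper31.T5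

open Finset Pool.Agent.Helper87.L3 Pool.Agent.Helper45.T5

/-- the pairs are triples of `Helper87.L3.Count` with one label -/
theorem pairs_le_trip {N' q E n : ℕ} (hN' : 0 < N') (hq : 0 < q) (B B' U U' : Finset ℕ)
    (hB : ∀ b ∈ B, ∃ u ∈ U, b = q * N' * u) (hB' : ∀ b ∈ B', ∃ u ∈ U', b = N' * u) :
    ((B ×ˢ B').filter (fun z => z.1 + z.2 ≤ n ∧ n < z.1 + z.2 + 2 * (N' * E))).card ≤
      (trip {()} U U' (fun _ => 0) q 1 (n / N' + 1 - 2 * E) (2 * E)).card := by
  refine card_le_card_of_injOn (fun z => ((), (z.1 / (q * N'), z.2 / N'))) ?_ ?_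
  · rintro ⟨b, b'⟩ hz
    rw [Finset.mem_coe, mem_filter, mem_product] at hz
    obtain ⟨⟨hb, hb'⟩, h1, h2⟩ := hz
    obtain ⟨u, hu, rfl⟩ := hB b hb
    obtain ⟨u', hu', rfl⟩ := hB' b' hb'
    have e1 : q * N' * u / (q * N') = u := Nat.mul_div_cancel_left _ (Nat.mul_pos hq hN')
    have e2 : N' * u' / N' = u' := Nat.mul_div_cancel_left _ hN'
    simp only [e1, e2] at h1 h2 ⊢
    rw [Finset.mem_coe, trip, mem_filter, mem_product, mem_product]
    have h3 : q * N' * u + N' * u' = N' * (q * u + u') := by ring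
    rw [h3] at h1 h2
    have h4 : q * u + u' ≤ n / N' := by
      rw [Nat.le_div_iff_mul_le hN']
      calc (q * u + u') * N' = N' * (q * u + u') := by ring
        _ ≤ n := h1
    have h5 : n / N' < q * u + u' + 2 * E := by
      apply Nat.div_lt_of_lt_mul
      calc n < N' * (q * u + u') + 2 * (N' * E) := h2
        _ = N' * (q * u + u' + 2 * E) := by ring
    refine ⟨⟨mem_singleton_self _, hu, hu'⟩, ⟨?_, ?_⟩, Nat.modEq_one⟩
    · simp only
      omega
    · simp only
      omega
  · rintro ⟨b, b'⟩ hz ⟨a, a'⟩ hy hzy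
    rw [Finset.mem_coe, mem_filter, mem_product] at hz hy
    obtain ⟨u, hu, rfl⟩ := hB b hz.1.1
    obtain ⟨u', hu', rfl⟩ := hB' b' hz.1.2
    obtain ⟨v, hv, rfl⟩ := hB a hy.1.1
    obtain ⟨v', hv', rfl⟩ := hB' a' hy.1.2
    simp only [Prod.mk.injEq, true_and] at hzy
    rw [Nat.mul_div_cancel_left _ (Nat.mul_pos hq hN'), Nat.mul_div_cancel_left _
      (Nat.mul_pos hq hN'), Nat.mul_div_cancel_left _ hN', Nat.mul_div_cancel_left _ hN'] at hzy
    rw [hzy.1, hzy.2]

/-- the class bound of a regular set, modulus `1`, in the notation `arcc` -/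
theorem reg_arcc_one {U : Finset ℕ} {Q : ℕ} {R w : ℝ} (h : RegSet U Q R w) (a L c : ℕ) :
    ((arcc U a L c 1).card : ℝ) ≤ R * (1 + L / (((1 : ℕ) : ℝ) * w)) := by
  refine le_trans (le_of_eq ?_) (h 1 one_pos (Nat.coprime_one_left _) a L c)
  rw [arcc]
  congr 2
  refine Finset.filter_congr fun b _ => ?_
  simp [Nat.ModEq, Nat.mod_one]

/-- **Two arcs, one after the other.** -/
theorem arcs_card {N' q E n V Q Q' : ℕ} {R R' w w' : ℝ} (hN' : 0 < N') (hq : 0 < q)
    (B B' U U' : Finset ℕ)
    (hB : ∀ b ∈ B, ∃ u ∈ U, b = q * N' * u) (hB' : ∀ b ∈ B', ∃ u ∈ U', b = N' * u)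
    (hU : RegSet U Q R w) (hU' : RegSet U' Q' R' w') (hV : ∀ u ∈ U', u < V)
    (hR : 0 ≤ R) (hR' : 0 ≤ R') (hw : 0 < w) (hw' : 0 < w') :
    (((B ×ˢ B').filter (fun z => z.1 + z.2 ≤ n ∧ n < z.1 + z.2 + 2 * (N' * E))).card : ℝ) ≤
      (R * (1 + ((2 * (E : ℝ) + V) / q + 2) / w)) * (R' * (1 + min (2 * (E : ℝ)) V / w')) := by
  have h1 := pairs_le_trip (N' := N') (q := q) (E := E) (n := n) hN' hq B B' U U' hB hB'
  have h2 := trip_card ({()} : Finset Unit) U U' (fun _ => 0) q 1 (n / N' + 1 - 2 * E) (2 * E) V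
    hq one_pos hV R R' w w' hR (fun a L => hU.arc a L) hw (fun a L c => reg_arcc_one hU' a L c)
    hw' hR'
  have h3 := (Nat.cast_le (α := ℝ)).2 h1
  refine h3.trans (h2.trans (le_of_eq ?_))
  push_cast
  rw [card_singleton]
  push_cast
  ring

/-- the same for the statement `far_enough` of block J0: `N₀` the modulus of the lower state,
`N₀ q` the modulus of the upper state, `Ne` the range of the code of the upper state -/
theorem arcs_card' {N0 q Ne n V Q Q' : ℕ} {R R' w w' : ℝ} (hN0 : 0 < N0) (hq : 0 < q)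
    (hNe : N0 ∣ Ne) (B B' U U' : Finset ℕ)
    (hB : ∀ b ∈ B, ∃ u ∈ U, b = q * N0 * u) (hB' : ∀ b ∈ B', ∃ u ∈ U', b = N0 * u)
    (hU : RegSet U Q R w) (hU' : RegSet U' Q' R' w') (hV : ∀ u ∈ U', u < V)
    (hR : 0 ≤ R) (hR' : 0 ≤ R') (hw : 0 < w) (hw' : 0 < w') :
    (((B ×ˢ B').filter (fun z => z.1 + z.2 ≤ n ∧ n < z.1 + z.2 + 2 * Ne)).card : ℝ) ≤
      (R * (1 + ((2 * ((Ne : ℝ) / N0) + V) / q + 2) / w)) *
        (R' * (1 + min (2 * ((Ne : ℝ) / N0)) V / w')) := by
  obtain ⟨E, rfl⟩ := hNe
  have h := arcs_card (E := E) (n := n) hN0 hq B B' U U' hB hB' hU hU' hV hR hR' hw hw'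
  have h1 : (((N0 * E : ℕ) : ℝ)) / N0 = E := by
    push_cast
    field_simp
  rw [h1]
  exact h

/-- the bound with exponentials: `E = exp e`, `V ≤ exp v`, `q = exp lq`, `w = exp lw`,
`w' = exp lw'` -/
theorem arcs_exp {E V q w w' e v lq lw lw' : ℝ} (hq : 1 ≤ q) (hw : 1 ≤ w)
    (hw' : 1 ≤ w') (hE0 : 0 ≤ E) (hV0 : 0 ≤ V) (hE : E ≤ Real.exp e) (hV : V ≤ Real.exp v)
    (hlq : Real.exp lq ≤ q) (hlw : Real.exp lw ≤ w) (hlw' : Real.exp lw' ≤ w') :
    (1 + ((2 * E + V) / q + 2) / w) * (1 + min (2 * E) V / w') ≤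
      18 * Real.exp (max 0 (max e v - lq - lw) + max 0 (min e v - lw')) := by
  have q0 : 0 < q := by linarith
  have w0 : 0 < w := by linarith
  have w0' : 0 < w' := by linarith
  set A := Real.exp (max 0 (max e v - lq - lw)) with hA
  set A' := Real.exp (max 0 (min e v - lw')) with hA'
  have hA1 : 1 ≤ A := by
    rw [hA]; exact Real.one_le_exp (le_max_left _ _)
  have hA1' : 1 ≤ A' := by
    rw [hA']; exact Real.one_le_exp (le_max_left _ _)
  have key : ∀ x y : ℝ, 0 ≤ x → x ≤ Real.exp y → y ≤ max e v → x / q / w ≤ A := by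
    intro x y hx hxy hy
    rw [div_div, div_le_iff₀ (by positivity)]
    calc x ≤ Real.exp y := hxy
      _ = Real.exp (y - lq - lw) * (Real.exp lq * Real.exp lw) := by
        rw [← Real.exp_add, ← Real.exp_add]; congr 1; ring
      _ ≤ A * (q * w) := by
        refine mul_le_mul ?_ (mul_le_mul hlq hlw (Real.exp_pos _).le q0.le) (by positivity)
          (by linarith)
        rw [hA]
        apply Real.exp_le_exp.2
        exact le_trans (by linarith) (le_max_right _ _)
  have h1 : E / q / w ≤ A := key E e hE0 hE (le_max_left _ _)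
  have h2 : V / q / w ≤ A := key V v hV0 hV (le_max_right _ _)
  have h3 : 2 / w ≤ 2 := by
    rw [div_le_iff₀ w0]; linarith
  have h4 : 1 + ((2 * E + V) / q + 2) / w ≤ 6 * A := by
    have e1 : ((2 * E + V) / q + 2) / w = 2 * (E / q / w) + V / q / w + 2 / w := by
      field_simp
    rw [e1]
    linarith
  have hm : min (2 * E) V ≤ 2 * Real.exp (min e v) := by
    rcases le_total e v with h | h
    · rw [min_eq_left h]
      exact (min_le_left _ _).trans (by linarith)
    · rw [min_eq_right h]
      have := Real.exp_pos v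
      exact (min_le_right _ _).trans (by linarith)
  have h5 : min (2 * E) V / w' ≤ 2 * A' := by
    rw [div_le_iff₀ w0']
    calc min (2 * E) V ≤ 2 * Real.exp (min e v) := hm
      _ = 2 * (Real.exp (min e v - lw') * Real.exp lw') := by
        rw [← Real.exp_add]; congr 2; ring
      _ ≤ 2 * (A' * w') := by
        refine mul_le_mul_of_nonneg_left ?_ (by norm_num)
        refine mul_le_mul ?_ hlw' (Real.exp_pos _).le (by linarith)
        rw [hA']
        exact Real.exp_le_exp.2 (le_max_right _ _)
      _ = 2 * A' * w' := by ring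
  have h6 : 1 + min (2 * E) V / w' ≤ 3 * A' := by linarith
  have h7 : 0 ≤ 1 + min (2 * E) V / w' := by
    have : 0 ≤ min (2 * E) V := le_min (by linarith) hV0
    positivity
  calc (1 + ((2 * E + V) / q + 2) / w) * (1 + min (2 * E) V / w')
      ≤ (6 * A) * (3 * A') := mul_le_mul h4 h6 h7 (by linarith)
    _ = 18 * (A * A') := by ring
    _ = _ := by rw [hA, hA', ← Real.exp_add]

/-- the two maxima of `far_exp` in the units `x = lam D`, `y = lam W`, `z = lam s` -/
theorem far_main {x y z : ℝ} (hy : 0 ≤ y) (h1 : 107 / 10000 * y ≤ z) (h2 : z ≤ 127 / 10000 * y)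
    (h3 : 7 / 20 * y ≤ x) :
    max 0 (max (z + x / 100000 + y / 100000 - y / 2) (y / 2 + y / 100000 - x)) +
      max 0 (min (x + z + x / 100000 + y / 100000 - y / 2) (y / 2 + y / 100000)) +
      (- (x / 2) - z + x / 200000) ≤ - (y / 200) := by
  have hD : 0 ≤ y / 2 + y / 100000 := by positivity
  rcases le_total x (3 * y) with hb | hb
  · have hA : z + x / 100000 + y / 100000 - y / 2 ≤ 0 := by linarith
    have e1 : max 0 (max (z + x / 100000 + y / 100000 - y / 2) (y / 2 + y / 100000 - x)) ≤
        max 0 (y / 2 + y / 100000 - x) :=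
      max_le (le_max_left _ _) (max_le (hA.trans (le_max_left _ _)) (le_max_right _ _))
    rcases le_total 0 (y / 2 + y / 100000 - x) with hB | hB
    · rw [max_eq_right hB] at e1
      have e2 : max 0 (min (x + z + x / 100000 + y / 100000 - y / 2) (y / 2 + y / 100000)) ≤
          max 0 (x + z + x / 100000 + y / 100000 - y / 2) := max_le_max le_rfl (min_le_left _ _)
      rcases le_total 0 (x + z + x / 100000 + y / 100000 - y / 2) with hC | hC
      · rw [max_eq_right hC] at e2
        linarith
      · rw [max_eq_left hC] at e2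
        linarith
    · rw [max_eq_left hB] at e1
      rcases le_total (x + z + x / 100000 + y / 100000 - y / 2) (y / 2 + y / 100000) with hc | hc
      · have e2 : max 0 (min (x + z + x / 100000 + y / 100000 - y / 2) (y / 2 + y / 100000)) ≤
            max 0 (x + z + x / 100000 + y / 100000 - y / 2) := max_le_max le_rfl (min_le_left _ _)
        rcases le_total 0 (x + z + x / 100000 + y / 100000 - y / 2) with hC | hC
        · rw [max_eq_right hC] at e2
          linarith
        · rw [max_eq_left hC] at e2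
          linarith
      · have e2 : max 0 (min (x + z + x / 100000 + y / 100000 - y / 2) (y / 2 + y / 100000)) ≤
            y / 2 + y / 100000 := max_le hD (min_le_right _ _)
        linarith
  · have q1 : max 0 (max (z + x / 100000 + y / 100000 - y / 2) (y / 2 + y / 100000 - x)) ≤
        x / 100000 := by
      apply max_le (by linarith)
      apply max_le <;> linarith
    have q2 : max 0 (min (x + z + x / 100000 + y / 100000 - y / 2) (y / 2 + y / 100000)) ≤
        y / 2 + y / 100000 := max_le hD (min_le_right _ _)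
    linarith

/-- **The exponent of (c).**  Units: digits, `lam ≤ log p ≤ lam (1 + η)`.  `W` the window, `D` the
distance, `s`, `s'` the leads of the fronts; `e`, `v`, `lq`, `lw`, `lw'` as in `arcs_exp`, `ll` the
logarithm of the number of labels in a class, `ln` the logarithm of `Ne / Ne'`. -/
theorem far_exp {lam η D W W2 s s' e v lq lw lw' ll ln c0 : ℝ} (hlam : 0 < lam) (hη0 : 0 ≤ η)
    (hη : η ≤ 1 / 100000) (hW : 0 < W) (hW2 : 0 ≤ W2) (hc0 : 0 ≤ c0)
    (hs : 107 / 10000 * W ≤ s) (hs2 : s ≤ 127 / 10000 * W)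
    (hs' : 107 / 10000 * W ≤ s')
    (hD : 7 / 20 * W ≤ D)
    (he : e ≤ lam * (1 + η) * (D + s) + c0) (hv : v ≤ lam * (1 + η) * W + c0)
    (hlq : lam * D - c0 ≤ lq) (hlw : lam * (W - W2) / 2 - c0 ≤ lw)
    (hlw' : lam * (W - W2) / 2 - c0 ≤ lw')
    (hll : ll ≤ lam * (1 + η) * (D / 2 - s') + c0) (hln : lam * (D + s - s') - c0 ≤ ln) :
    max 0 (max e v - lq - lw) + max 0 (min e v - lw') + ll - ln ≤
      - (lam * W / 200) + lam * W2 + 7 * c0 := by
  have hD0 : 0 < D := by nlinarith
  have k1 : 0 ≤ lam * W := by positivity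
  have k2 : 0 ≤ lam * W2 := by positivity
  have ηW : lam * η * W ≤ lam * W / 100000 := by
    have : lam * η * W = (lam * W) * η := by ring
    rw [this]
    have := mul_le_mul_of_nonneg_left hη k1
    linarith
  have ηD : lam * η * D ≤ lam * D / 100000 := by
    have e1 : lam * η * D = (lam * D) * η := by ring
    rw [e1]
    have := mul_le_mul_of_nonneg_left hη (by positivity : 0 ≤ lam * D)
    linarith
  have ηs : lam * η * s ≤ lam * W / 100000 := by
    have e1 : lam * η * s ≤ lam * η * W := by
      apply mul_le_mul_of_nonneg_left _ (by positivity)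
      linarith
    linarith
  have ηs' : 0 ≤ lam * η * s' := by
    have : 0 ≤ s' := by nlinarith
    positivity
  have hsl : lam * (107 / 10000 * W) ≤ lam * s := mul_le_mul_of_nonneg_left hs hlam.le
  have hsu : lam * s ≤ lam * (127 / 10000 * W) := mul_le_mul_of_nonneg_left hs2 hlam.le
  have hDl : lam * (7 / 20 * W) ≤ lam * D := mul_le_mul_of_nonneg_left hD hlam.le
  -- everything in the products `lam * x`
  have f1 : ll - ln ≤ - (lam * D / 2) - lam * s + lam * D / 200000 + 2 * c0 := by
    have e1 : lam * (1 + η) * (D / 2 - s') = lam * D / 2 - lam * s' + lam * η * D / 2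
        - lam * η * s' := by ring
    have e2 : lam * (D + s - s') = lam * D + lam * s - lam * s' := by ring
    rw [e1] at hll
    rw [e2] at hln
    linarith
  have he' : e ≤ lam * D + lam * s + lam * D / 100000 + lam * W / 100000 + c0 := by
    have e1 : lam * (1 + η) * (D + s) = lam * D + lam * s + lam * η * D + lam * η * s := by ring
    rw [e1] at he
    linarith
  have hv' : v ≤ lam * W + lam * W / 100000 + c0 := by
    have e1 : lam * (1 + η) * W = lam * W + lam * η * W := by ring
    rw [e1] at hv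
    linarith
  have hlw1 : lam * W / 2 - lam * W2 / 2 - c0 ≤ lw := by
    have e1 : lam * (W - W2) / 2 = lam * W / 2 - lam * W2 / 2 := by ring
    rw [e1] at hlw
    exact hlw
  have hlw2 : lam * W / 2 - lam * W2 / 2 - c0 ≤ lw' := by
    have e1 : lam * (W - W2) / 2 = lam * W / 2 - lam * W2 / 2 := by ring
    rw [e1] at hlw'
    exact hlw'
  -- first maximum
  have g1 : e - lq - lw ≤ lam * s + lam * D / 100000 + lam * W / 100000 - lam * W / 2
      + lam * W2 / 2 + 3 * c0 := by linarith
  have g2 : v - lq - lw ≤ lam * W / 2 + lam * W / 100000 - lam * D + lam * W2 / 2 + 3 * c0 := by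
    linarith
  have g3 : min e v - lw' ≤ lam * D + lam * s + lam * D / 100000 + lam * W / 100000
      - lam * W / 2 + lam * W2 / 2 + 2 * c0 := by
    have := min_le_left e v
    linarith
  have g4 : min e v - lw' ≤ lam * W / 2 + lam * W / 100000 + lam * W2 / 2 + 2 * c0 := by
    have := min_le_right e v
    linarith
  set x := lam * D with hx
  set y := lam * W with hy
  set z := lam * s with hz
  set u := lam * W2 with hu
  have hsl' : 107 / 10000 * y ≤ z := by
    have : lam * (107 / 10000 * W) = 107 / 10000 * y := by rw [hy]; ring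
    linarith
  have hsu' : z ≤ 127 / 10000 * y := by
    have : lam * (127 / 10000 * W) = 127 / 10000 * y := by rw [hy]; ring
    linarith
  have hDl' : 7 / 20 * y ≤ x := by
    have : lam * (7 / 20 * W) = 7 / 20 * y := by rw [hy]; ring
    linarith
  -- bounds for the two maxima
  have m1 : max 0 (max e v - lq - lw) ≤ max 0 (max (z + x / 100000 + y / 100000 - y / 2)
      (y / 2 + y / 100000 - x)) + u / 2 + 3 * c0 := by
    have a0 : 0 ≤ u / 2 + 3 * c0 := by linarith
    apply max_le
    · have := le_max_left 0 (max (z + x / 100000 + y / 100000 - y / 2)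
        (y / 2 + y / 100000 - x))
      linarith
    · have b1 := le_max_right 0 (max (z + x / 100000 + y / 100000 - y / 2)
        (y / 2 + y / 100000 - x))
      have b2 := le_max_left (z + x / 100000 + y / 100000 - y / 2) (y / 2 + y / 100000 - x)
      have b3 := le_max_right (z + x / 100000 + y / 100000 - y / 2) (y / 2 + y / 100000 - x)
      rcases max_cases e v with ⟨h, _⟩ | ⟨h, _⟩
      · rw [h]; linarith
      · rw [h]; linarith
  have m2 : max 0 (min e v - lw') ≤ max 0 (min (x + z + x / 100000 + y / 100000 - y / 2)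
      (y / 2 + y / 100000)) + u / 2 + 2 * c0 := by
    have a0 : 0 ≤ u / 2 + 2 * c0 := by linarith
    apply max_le
    · have := le_max_left 0 (min (x + z + x / 100000 + y / 100000 - y / 2)
        (y / 2 + y / 100000))
      linarith
    · have b1 := le_max_right 0 (min (x + z + x / 100000 + y / 100000 - y / 2)
        (y / 2 + y / 100000))
      rcases min_cases (x + z + x / 100000 + y / 100000 - y / 2) (y / 2 + y / 100000) with
        ⟨h, _⟩ | ⟨h, _⟩
      · rw [h] at b1 ⊢; linarith
      · rw [h] at b1 ⊢; linarith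
  have main : max 0 (max (z + x / 100000 + y / 100000 - y / 2) (y / 2 + y / 100000 - x)) +
      max 0 (min (x + z + x / 100000 + y / 100000 - y / 2) (y / 2 + y / 100000)) +
      (- (x / 2) - z + x / 200000) ≤ - (y / 200) :=
    far_main k1 hsl' hsu' hDl'
  linarith

end Pool.Agent.Helper31.T5
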