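import Pool.Agent.Helper39.T5.Tup
import Pool.Agent.Helper50.T5.Win

/-!
# T5b (MP_12a1af), block CNTb: the number of admissible vectors, families with few digits allowed

A family `f` has the prime `p f`, the exponent `a f` and a nonempty set `T f` of admissible values.
As soon as `p f ^ a f` is at least `2 ^ 14` and `z f ≤ a f`, all values of `T1 (p f) (a f)` are
admissible (before that a newborn family may have the value `1` only).
-/

namespace Pool.Agent.Helper31.T5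

open Finset Pool.Agent.Helper39.T5 Pool.Agent.Helper50.T5

/-- one family; `T` may be `{1}` as long as `p ^ a < 2 ^ 14` or `a < z` -/
theorem card_fam_ge {p a l z : ℕ} {C : ℝ} (T : Finset ℕ) (hp : p.Prime) (hl0 : 0 < l)
    (h1 : T.Nonempty) (hT : z ≤ a → 2 ^ 14 ≤ p ^ a → T1 p a ⊆ T) (hC : 672 ≤ C)
    (hz : a < z → Real.sqrt ((p : ℝ) ^ a) ≤ C) (hal : (a : ℝ) * Real.log p ≤ 14 * l) :
    Real.sqrt ((p : ℝ) ^ a) / (C * l) ≤ (T.card : ℝ) := by
  have hl : (1 : ℝ) ≤ l := by exact_mod_cast hl0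
  have hC0 : 0 < C := by linarith
  have hs : 0 ≤ Real.sqrt ((p : ℝ) ^ a) := Real.sqrt_nonneg _
  by_cases h : z ≤ a ∧ 2 ^ 14 ≤ p ^ a
  · have h2 := card_T1_ge_log hp h.2 hl0 hal
    have h3 : ((T1 p a).card : ℝ) ≤ (T.card : ℝ) := by
      exact_mod_cast card_le_card (hT h.1 h.2)
    refine le_trans ?_ (h2.trans h3)
    apply div_le_div_of_nonneg_left hs (by positivity)
    gcongr
  · have h2 : (1 : ℝ) ≤ (T.card : ℝ) := by exact_mod_cast h1.card_pos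
    refine le_trans ?_ h2
    rw [div_le_one (by positivity)]
    have h3 : Real.sqrt ((p : ℝ) ^ a) ≤ C := by
      by_cases hz' : a < z
      · exact hz hz'
      · have h4 : p ^ a < 2 ^ 14 := by
          by_contra h5
          exact h ⟨by omega, by omega⟩
        have h5 : ((p : ℝ) ^ a) ≤ (128 : ℝ) ^ 2 := by
          have h6 : ((p ^ a : ℕ) : ℝ) ≤ ((2 ^ 14 : ℕ) : ℝ) := by exact_mod_cast h4.le
          push_cast at h6
          norm_num at h6 ⊢
          linarith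
        have h6 : Real.sqrt ((p : ℝ) ^ a) ≤ 128 := by
          rw [Real.sqrt_le_left (by norm_num)]
          exact h5
        linarith
    nlinarith

/-- **number of admissible vectors** of finitely many families -/
theorem card_pi_ge {ι : Type*} [Fintype ι] [DecidableEq ι] (p a z : ι → ℕ) (T : ι → Finset ℕ)
    {l : ℕ} {C : ℝ} (hp : ∀ f, (p f).Prime) (hl0 : 0 < l) (h1 : ∀ f, (T f).Nonempty)
    (hT : ∀ f, z f ≤ a f → 2 ^ 14 ≤ p f ^ a f → T1 (p f) (a f) ⊆ T f) (hC : 672 ≤ C)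
    (hz : ∀ f, a f < z f → Real.sqrt ((p f : ℝ) ^ a f) ≤ C)
    (hal : ∀ f, (a f : ℝ) * Real.log (p f) ≤ 14 * l) :
    Real.sqrt (((∏ f, p f ^ a f : ℕ) : ℝ)) / (C * (l : ℝ)) ^ Fintype.card ι ≤
      ((Fintype.piFinset T).card : ℝ) := by
  have hl : (0 : ℝ) < l := by exact_mod_cast hl0
  have hC0 : 0 < C := by linarith
  rw [Fintype.card_piFinset]
  push_cast
  rw [Real.sqrt_prod _ (fun f _ => by positivity), ← Finset.card_univ, ← Finset.prod_const,
    ← Finset.prod_div_distrib]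
  apply Finset.prod_le_prod
  · intro f _
    positivity
  · intro f _
    exact card_fam_ge (T f) (hp f) hl0 (h1 f) (hT f) hC (hz f) (hal f)

/-- the same for the families of a finite set -/
theorem prod_ge {κ : Type*} (S : Finset κ) (p a z : κ → ℕ) (T : κ → Finset ℕ)
    {l : ℕ} {C : ℝ} (hp : ∀ f ∈ S, (p f).Prime) (hl0 : 0 < l) (h1 : ∀ f ∈ S, (T f).Nonempty)
    (hT : ∀ f ∈ S, z f ≤ a f → 2 ^ 14 ≤ p f ^ a f → T1 (p f) (a f) ⊆ T f) (hC : 672 ≤ C)
    (hz : ∀ f ∈ S, a f < z f → Real.sqrt ((p f : ℝ) ^ a f) ≤ C)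
    (hal : ∀ f ∈ S, (a f : ℝ) * Real.log (p f) ≤ 14 * l) :
    Real.sqrt (((∏ f ∈ S, p f ^ a f : ℕ) : ℝ)) / (C * (l : ℝ)) ^ S.card ≤
      ∏ f ∈ S, ((T f).card : ℝ) := by
  have hl : (0 : ℝ) < l := by exact_mod_cast hl0
  have hC0 : 0 < C := by linarith
  push_cast
  rw [Real.sqrt_prod _ (fun f _ => by positivity), ← Finset.prod_const,
    ← Finset.prod_div_distrib]
  apply Finset.prod_le_prod
  · intro f _
    positivity
  · intro f hf
    exact card_fam_ge (T f) (hp f hf) hl0 (h1 f hf) (hT f hf) hC (hz f hf) (hal f hf)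

/-- **assembly**: a state with unit `N` = product of the active moduli.  `X` is the set of
configurations, `#X ≥ √N / P`; the element `el x v < c0 + N v`; bounded fibres. -/
theorem cnt_ge {α : Type*} [DecidableEq α] (X : Finset α) (vlo vhi : ℕ) (ρ : ℕ → ℕ → ℕ)
    (hρ : ∀ L b, ρ L b < 2 ^ L) (el : α → ℕ → ℕ) {M : ℕ} (hM0 : 0 < M)
    (hM : ∀ m, ((X ×ˢ VW vlo vhi ρ).filter (fun q => el q.1 q.2 = m)).card ≤ M)
    (A : Finset ℕ) (hA : ∀ x ∈ X, ∀ v ∈ VW vlo vhi ρ, el x v ∈ A)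
    {N c0 y : ℕ} (hel : ∀ x ∈ X, ∀ v, el x v < c0 + N * v) {P : ℝ} (hP : 0 < P)
    (hX : Real.sqrt (N : ℝ) / P ≤ (X.card : ℝ))
    (hN : 0 < N) (hc : 2 * c0 ≤ y) (hy : 64 * N ≤ y) (hlo : 64 * (N * vlo) ≤ y)
    (hhi : y ≤ c0 + N * vhi) :
    Real.sqrt (y : ℝ) / (2 * M * P) ≤ ((A.filter (fun a => a < y)).card : ℝ) := by
  have h := card_below_ge X vlo vhi ρ hρ el M hM0 hM A hA N c0 y hel hN hc hy hlo hhi
  refine le_trans ?_ h
  have hNr : (0 : ℝ) < N := by exact_mod_cast hN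
  have hMr : (0 : ℝ) < M := by exact_mod_cast hM0
  have h1 : Real.sqrt (y : ℝ) = Real.sqrt (N : ℝ) * Real.sqrt ((y : ℝ) / (N : ℝ)) := by
    rw [← Real.sqrt_mul hNr.le]
    congr 1
    field_simp
  rw [h1]
  have h2 : Real.sqrt (N : ℝ) ≤ (X.card : ℝ) * P := by
    rwa [div_le_iff₀ hP] at hX
  rw [div_le_div_iff₀ (by positivity) (by positivity)]
  have h3 : 0 ≤ Real.sqrt ((y : ℝ) / (N : ℝ)) := Real.sqrt_nonneg _
  calc Real.sqrt (N : ℝ) * Real.sqrt ((y : ℝ) / (N : ℝ)) * (2 * M)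
      ≤ ((X.card : ℝ) * P) * Real.sqrt ((y : ℝ) / (N : ℝ)) * (2 * M) := by gcongr
    _ = (X.card : ℝ) * Real.sqrt ((y : ℝ) / (N : ℝ)) * (2 * M * P) := by ring

/-- the loss `2 M (C l) ^ F` is a power of `log y`, if `l ≤ K log y` and `y` is large -/
theorem loss_le {C K B : ℝ} {M F l y : ℕ} (hC : 0 ≤ C)
    (hl : (l : ℝ) ≤ K * Real.log y) (hB : 2 * (M : ℝ) * (C * K) ^ F ≤ Real.log y ^ B)
    (hy : 1 < y) :
    2 * (M : ℝ) * (C * l) ^ F ≤ Real.log y ^ ((F : ℝ) + B) := by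
  have hlog : 0 < Real.log y := Real.log_pos (by exact_mod_cast hy)
  have h1 : (C * (l : ℝ)) ^ F ≤ (C * K) ^ F * Real.log y ^ F := by
    rw [← mul_pow]
    apply pow_le_pow_left₀ (by positivity)
    calc C * (l : ℝ) ≤ C * (K * Real.log y) := by gcongr
      _ = C * K * Real.log y := by ring
  calc 2 * (M : ℝ) * (C * l) ^ F ≤ 2 * (M : ℝ) * ((C * K) ^ F * Real.log y ^ F) := by gcongr
    _ = (2 * (M : ℝ) * (C * K) ^ F) * Real.log y ^ F := by ring
    _ ≤ Real.log y ^ B * Real.log y ^ F := by gcongr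
    _ = Real.log y ^ ((F : ℝ) + B) := by
      rw [Real.rpow_add hlog, Real.rpow_natCast]
      ring

/-- **CNTb, abstract form**: all families, the window and the logarithms together -/
theorem cnt_final {ι : Type*} [Fintype ι] [DecidableEq ι] (p a z : ι → ℕ) (T : ι → Finset ℕ)
    {l : ℕ} {C K B : ℝ} (hp : ∀ f, (p f).Prime) (hl0 : 0 < l) (h1 : ∀ f, (T f).Nonempty)
    (hT : ∀ f, z f ≤ a f → 2 ^ 14 ≤ p f ^ a f → T1 (p f) (a f) ⊆ T f) (hC : 672 ≤ C)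
    (hz : ∀ f, a f < z f → Real.sqrt ((p f : ℝ) ^ a f) ≤ C)
    (hal : ∀ f, (a f : ℝ) * Real.log (p f) ≤ 14 * l)
    (vlo vhi : ℕ) (ρ : ℕ → ℕ → ℕ) (hρ : ∀ L b, ρ L b < 2 ^ L) (el : (ι → ℕ) → ℕ → ℕ)
    {M : ℕ} (hM0 : 0 < M)
    (hM : ∀ m, ((Fintype.piFinset T ×ˢ VW vlo vhi ρ).filter
      (fun q => el q.1 q.2 = m)).card ≤ M)
    (A : Finset ℕ) (hA : ∀ x ∈ Fintype.piFinset T, ∀ v ∈ VW vlo vhi ρ, el x v ∈ A)
    {c0 y : ℕ} (hel : ∀ x ∈ Fintype.piFinset T, ∀ v, el x v < c0 + (∏ f, p f ^ a f) * v)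
    (hc : 2 * c0 ≤ y) (hy : 64 * (∏ f, p f ^ a f) ≤ y)
    (hlo : 64 * ((∏ f, p f ^ a f) * vlo) ≤ y) (hhi : y ≤ c0 + (∏ f, p f ^ a f) * vhi)
    (hl : (l : ℝ) ≤ K * Real.log y)
    (hB : 2 * (M : ℝ) * (C * K) ^ Fintype.card ι ≤ Real.log y ^ B) :
    Real.sqrt (y : ℝ) / Real.log y ^ ((Fintype.card ι : ℝ) + B) ≤
      ((A.filter (fun a => a < y)).card : ℝ) := by
  have hN : 0 < ∏ f, p f ^ a f := Finset.prod_pos (fun f _ => pow_pos (hp f).pos _)
  have hl' : (0 : ℝ) < l := by exact_mod_cast hl0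
  have hC0 : 0 < C := by linarith
  have hMr : (0 : ℝ) < M := by exact_mod_cast hM0
  have hX := card_pi_ge p a z T hp hl0 h1 hT hC hz hal
  have h := cnt_ge (Fintype.piFinset T) vlo vhi ρ hρ el hM0 hM A hA hel
    (P := (C * (l : ℝ)) ^ Fintype.card ι) (by positivity) hX hN hc hy hlo hhi
  have hy1 : 1 < y := by omega
  refine le_trans ?_ h
  have h2 := loss_le (F := Fintype.card ι) hC0.le hl hB hy1
  apply div_le_div_of_nonneg_left (Real.sqrt_nonneg _) (by positivity) h2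

end Pool.Agent.Helper31.T5
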