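import Pool.Agent.Helper31.T5.Arcs

/-!
# T5, block J0 (c): the two arcs in the form of helper29
-/

set_option autoImplicit false

namespace Pool.Agent.Helper31.T5

open Finset Pool.Agent.Helper87.L3

theorem pairs_le_trip' {N' q A n : ℕ} (hN' : 0 < N') (hq : 0 < q) (B B' U U' : Finset ℕ)
    (hB : ∀ b ∈ B, ∃ u ∈ U, b = q * N' * u) (hB' : ∀ b ∈ B', ∃ u ∈ U', b = N' * u) :
    ((B ×ˢ B').filter (fun z => z.1 + z.2 ≤ n ∧ n < z.1 + z.2 + A)).card ≤
      (trip {()} U U' (fun _ => 0) q 1 (n / N' + 1 - (A / N' + 1)) (A / N' + 1)).card := by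
  refine card_le_card_of_injOn (fun z => ((), (z.1 / (q * N'), z.2 / N'))) ?_ ?_
  · rintro ⟨b, b'⟩ hz
    rw [Finset.mem_coe, mem_filter, mem_product] at hz
    obtain ⟨⟨hb, hb'⟩, h1, h2⟩ := hz
    obtain ⟨u, hu, rfl⟩ := hB b hb
    obtain ⟨u', hu', rfl⟩ := hB' b' hb'
    have e1 : q * N' * u / (q * N') = u := Nat.mul_div_cancel_left _ (Nat.mul_pos hq hN')
    have e2 : N' * u' / N' = u' := Nat.mul_div_cancel_left _ hN'
    simp only [e1, e2] at h1 h2 ⊢
    rw [Finset.mem_coe, trip, mem_filter, mem_product, mem_product]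
    have h3 : q * N' * u + N' * u' = N' * (q * u + u') := by ring
    rw [h3] at h1 h2
    have h4 : q * u + u' ≤ n / N' := by
      rw [Nat.le_div_iff_mul_le hN']
      calc (q * u + u') * N' = N' * (q * u + u') := by ring
        _ ≤ n := h1
    have h5 : n / N' < q * u + u' + (A / N' + 1) := by
      apply Nat.div_lt_of_lt_mul
      have h6 : A < N' * (A / N' + 1) := by
        have := Nat.lt_mul_div_succ A hN'
        simpa using this
      calc n < N' * (q * u + u') + A := h2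
        _ < N' * (q * u + u') + N' * (A / N' + 1) := by omega
        _ = N' * (q * u + u' + (A / N' + 1)) := by ring
    refine ⟨⟨mem_singleton_self _, hu, hu'⟩, ⟨?_, ?_⟩, Nat.modEq_one⟩
    · simp only
      omega
    · simp only
      omega
  · rintro ⟨b, b'⟩ hz ⟨a, a'⟩ hy hzy
    rw [Finset.mem_coe, mem_filter, mem_product] at hz hy
    obtain ⟨u, hu, rfl⟩ := hB b hz.1.1
    obtain ⟨u', hu', rfl⟩ := hB' b' hz.1.2
    obtain ⟨v, hv, rfl⟩ := hB a hy.1.1
    obtain ⟨v', hv', rfl⟩ := hB' a' hy.1.2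
    simp only [Prod.mk.injEq, true_and] at hzy
    rw [Nat.mul_div_cancel_left _ (Nat.mul_pos hq hN'), Nat.mul_div_cancel_left _
      (Nat.mul_pos hq hN'), Nat.mul_div_cancel_left _ hN', Nat.mul_div_cancel_left _ hN'] at hzy
    rw [hzy.1, hzy.2]

/-- **Two arcs, one after the other**, windows `N c`, `c ∈ C`, and `N' c'`, `c' ∈ C'`, `c' < Z`. -/
theorem two_arcs {N N' A Z n : ℕ} {R R' w w' : ℝ} (hN' : 0 < N') (hN : 0 < N) (hd : N' ∣ N)
    (B B' C C' : Finset ℕ) (hB : ∀ b ∈ B, ∃ c ∈ C, b = N * c)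
    (hB' : ∀ b ∈ B', ∃ c ∈ C', b = N' * c)
    (hC : ∀ a L : ℕ, ((C.filter fun c => a ≤ c ∧ c < a + L).card : ℝ) ≤ R * (1 + L / w))
    (hC' : ∀ a L : ℕ, ((C'.filter fun c => a ≤ c ∧ c < a + L).card : ℝ) ≤ R' * (1 + L / w'))
    (hZ : ∀ c ∈ C', c < Z) (hR : 0 ≤ R) (hR' : 0 ≤ R') (hw : 0 < w) (hw' : 0 < w') :
    (((B ×ˢ B').filter (fun z => z.1 + z.2 ≤ n ∧ n < z.1 + z.2 + A)).card : ℝ) ≤
      (R * (1 + (((A : ℝ) + N' * Z) / N + 3) / w)) *
        (R' * (1 + min ((A : ℝ) / N' + 1) Z / w')) := by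
  obtain ⟨q, rfl⟩ := hd
  have hq : 0 < q := Nat.pos_of_mul_pos_left hN
  have hN'r : (0 : ℝ) < N' := by exact_mod_cast hN'
  have hqr : (1 : ℝ) ≤ q := by exact_mod_cast hq
  have hq0 : (0 : ℝ) < q := by linarith
  have h1 := pairs_le_trip' (N' := N') (q := q) (A := A) (n := n) hN' hq B B' C C'
    (fun b hb => by
      obtain ⟨c, hc, h⟩ := hB b hb
      exact ⟨c, hc, by rw [h]; ring⟩) hB'
  have h2 := trip_card ({()} : Finset Unit) C C' (fun _ => 0) q 1 (n / N' + 1 - (A / N' + 1))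
    (A / N' + 1) Z hq one_pos hZ R R' w w' hR (fun a L => hC a L) hw (fun a L c => by
      refine le_trans (le_of_eq ?_) ((hC' a L).trans (le_of_eq ?_))
      · rw [arcc]
        congr 2
        refine Finset.filter_congr fun b _ => ?_
        simp [Nat.ModEq, Nat.mod_one]
      · simp) hw' hR'
  have h3 := ((Nat.cast_le (α := ℝ)).2 h1).trans h2
  refine h3.trans ?_
  have e0 : ((A / N' : ℕ) : ℝ) ≤ (A : ℝ) / N' := Nat.cast_div_le
  have e1 : ((A / N' + 1 : ℕ) : ℝ) ≤ (A : ℝ) / N' + 1 := by push_cast; linarith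
  rw [card_singleton]
  push_cast at e1 ⊢
  rw [one_mul, one_mul]
  have e2 : ((((A / N' : ℕ) : ℝ) + 1 + Z) / q + 2) / w ≤
      (((A : ℝ) + N' * Z) / (N' * q) + 3) / w := by
    apply div_le_div_of_nonneg_right _ hw.le
    have e3 : (((A / N' : ℕ) : ℝ) + 1 + Z) / q ≤ ((A : ℝ) / N' + 1 + Z) / q := by
      apply div_le_div_of_nonneg_right _ hq0.le
      linarith
    have e4 : ((A : ℝ) / N' + 1 + Z) / q = ((A : ℝ) + N' * Z) / (N' * q) + 1 / q := by
      field_simp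
      ring
    have e5 : 1 / (q : ℝ) ≤ 1 := by
      rw [div_le_one hq0]
      exact hqr
    linarith
  have e6 : min (((A / N' : ℕ) : ℝ) + 1) (Z : ℝ) / w' ≤ min ((A : ℝ) / N' + 1) Z / w' := by
    apply div_le_div_of_nonneg_right _ hw'.le
    exact min_le_min e1 le_rfl
  have e7 : 0 ≤ min (((A / N' : ℕ) : ℝ) + 1) (Z : ℝ) / w' := by
    apply div_nonneg _ hw'.le
    exact le_min (by positivity) (Nat.cast_nonneg _)
  refine mul_le_mul ?_ ?_ ?_ ?_
  · exact mul_le_mul_of_nonneg_left (by linarith) hR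
  · exact mul_le_mul_of_nonneg_left (by linarith) hR'
  · exact mul_nonneg hR' (by linarith)
  · apply mul_nonneg hR
    have : 0 ≤ (((A : ℝ) + N' * Z) / (N' * q) + 3) / w := by positivity
    linarith

end Pool.Agent.Helper31.T5
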